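import Pool.Agent.W761.CC.Stms

/-!
# CC-KQ: the quadratic forms
-/

set_option autoImplicit false

open MeasureTheory
open scoped ENNReal

namespace Pool.Agent.W214.CC

open Pool.Agent.W761.CB Pool.Agent.W761.CC

/-- the admissible sets -/
def Dm (n : ℕ) (D : Set (Fin n → ℝ)) : Prop := D = Set.univ ∨ ∃ r : ℝ, D = cube n r

theorem meas_cube (n : ℕ) (r : ℝ) : MeasurableSet (cube n r) := by
  have : cube n r = ⋂ c : Fin n, {z | |z c| ≤ r} := by
    ext z
    simp [cube]
  rw [this]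
  refine MeasurableSet.iInter fun c => ?_
  exact measurableSet_le (by fun_prop) measurable_const

theorem Dm.meas {n : ℕ} {D : Set (Fin n → ℝ)} (h : Dm n D) : MeasurableSet D := by
  rcases h with rfl | ⟨r, rfl⟩
  · exact MeasurableSet.univ
  · exact meas_cube n r

theorem Dm.mid {n : ℕ} {D : Set (Fin n → ℝ)} (h : Dm n D) {z t : Fin n → ℝ} (hz : z ∈ D)
    (hzt : z + t + t ∈ D) : z + t ∈ D := by
  rcases h with rfl | ⟨r, rfl⟩
  · exact Set.mem_univ _
  · intro c
    have h1 := abs_le.1 (hz c)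
    have h2 := abs_le.1 (hzt c)
    simp only [Pi.add_apply] at h2 ⊢
    rw [abs_le]
    constructor <;> linarith

/-- the set of the `z` with `z, z + s ∈ D` -/
def ES {n : ℕ} (D : Set (Fin n → ℝ)) (s : Fin n → ℝ) : Set (Fin n → ℝ) := {z | z ∈ D ∧ z + s ∈ D}

theorem Dm.measES {n : ℕ} {D : Set (Fin n → ℝ)} (h : Dm n D) (s : Fin n → ℝ) :
    MeasurableSet (ES D s) := by
  refine MeasurableSet.inter h.meas ?_
  exact (measurable_add_const s) h.meas

/-- the integrand -/
noncomputable def dd {n : ℕ} (f : (Fin n → ℝ) → ℝ) (s z : Fin n → ℝ) : ℝ≥0∞ :=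
  ENNReal.ofReal ((f (z + s) - f z) ^ 2)

theorem meas_dd {n : ℕ} {f : (Fin n → ℝ) → ℝ} (hf : Measurable f) (s : Fin n → ℝ) :
    Measurable (dd f s) := by
  unfold dd
  exact (((hf.comp (measurable_add_const s)).sub hf).pow_const 2).ennreal_ofReal

theorem gk_eq {n : ℕ} (D : Set (Fin n → ℝ)) (c : Fin n) (k : ℕ) (f : (Fin n → ℝ) → ℝ) :
    gk D c k f = 4 ^ k * ∫⁻ z in ES D (Pi.single c ((2 : ℝ)⁻¹ ^ k)),
      dd f (Pi.single c ((2 : ℝ)⁻¹ ^ k)) z := rfl

theorem two_step {n : ℕ} {D : Set (Fin n → ℝ)} (hD : Dm n D) {f : (Fin n → ℝ) → ℝ}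
    (hf : Measurable f) (t : Fin n → ℝ) :
    ∫⁻ z in ES D (t + t), dd f (t + t) z ≤ 4 * ∫⁻ z in ES D t, dd f t z := by
  have hpt : ∀ z, dd f (t + t) z ≤ 2 * dd f t (z + t) + 2 * dd f t z := by
    intro z
    unfold dd
    have e2 : (2 : ℝ≥0∞) = ENNReal.ofReal 2 := by simp
    rw [e2, ← ENNReal.ofReal_mul (by norm_num), ← ENNReal.ofReal_mul (by norm_num),
      ← ENNReal.ofReal_add (by positivity) (by positivity)]
    refine ENNReal.ofReal_le_ofReal ?_
    rw [← add_assoc]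
    nlinarith [sq_nonneg ((f (z + t + t) - f (z + t)) - (f (z + t) - f z))]
  have hmE := hD.measES t
  have hmE2 := hD.measES (t + t)
  have hmd := meas_dd hf t
  have h1 : ∫⁻ z in ES D (t + t), dd f t z ≤ ∫⁻ z in ES D t, dd f t z := by
    refine lintegral_mono_set ?_
    rintro z ⟨hz1, hz2⟩
    rw [← add_assoc] at hz2
    exact ⟨hz1, hD.mid hz1 hz2⟩
  have h2 : ∫⁻ z in ES D (t + t), dd f t (z + t) ≤ ∫⁻ z in ES D t, dd f t z := by
    rw [← lintegral_indicator hmE2, ← lintegral_indicator hmE,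
      ← lintegral_add_right_eq_self (fun z => (ES D t).indicator (fun z => dd f t z) z) t]
    refine lintegral_mono fun z => ?_
    by_cases hz : z ∈ ES D (t + t)
    · have hz' : z + t ∈ ES D t := by
        obtain ⟨hz1, hz2⟩ := hz
        rw [← add_assoc] at hz2
        exact ⟨hD.mid hz1 hz2, hz2⟩
      rw [Set.indicator_of_mem hz, Set.indicator_of_mem hz']
    · rw [Set.indicator_of_notMem hz]
      exact zero_le
  calc ∫⁻ z in ES D (t + t), dd f (t + t) z
      ≤ ∫⁻ z in ES D (t + t), (2 * dd f t (z + t) + 2 * dd f t z) := lintegral_mono hpt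
    _ = 2 * (∫⁻ z in ES D (t + t), dd f t (z + t)) + 2 * ∫⁻ z in ES D (t + t), dd f t z := by
        rw [lintegral_add_right _ (hmd.const_mul 2), lintegral_const_mul' _ _ (by norm_num),
          lintegral_const_mul' _ _ (by norm_num)]
    _ ≤ 2 * (∫⁻ z in ES D t, dd f t z) + 2 * ∫⁻ z in ES D t, dd f t z := by gcongr
    _ = 4 * ∫⁻ z in ES D t, dd f t z := by ring

theorem gk_mono1 {n : ℕ} {D : Set (Fin n → ℝ)} (hD : Dm n D) {f : (Fin n → ℝ) → ℝ}
    (hf : Measurable f) (c : Fin n) (k : ℕ) : gk D c k f ≤ gk D c (k + 1) f := by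
  have e : (Pi.single c ((2 : ℝ)⁻¹ ^ k) : Fin n → ℝ) =
      Pi.single c ((2 : ℝ)⁻¹ ^ (k + 1)) + Pi.single c ((2 : ℝ)⁻¹ ^ (k + 1)) := by
    rw [← Pi.single_add]
    congr 1
    rw [pow_succ]
    ring
  rw [gk_eq, gk_eq, e]
  calc 4 ^ k * ∫⁻ z in ES D (Pi.single c ((2 : ℝ)⁻¹ ^ (k + 1)) + Pi.single c ((2 : ℝ)⁻¹ ^ (k + 1))),
        dd f (Pi.single c ((2 : ℝ)⁻¹ ^ (k + 1)) + Pi.single c ((2 : ℝ)⁻¹ ^ (k + 1))) z
      ≤ 4 ^ k * (4 * ∫⁻ z in ES D (Pi.single c ((2 : ℝ)⁻¹ ^ (k + 1))),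
        dd f (Pi.single c ((2 : ℝ)⁻¹ ^ (k + 1))) z) := by
        have := two_step hD hf (Pi.single c ((2 : ℝ)⁻¹ ^ (k + 1)))
        gcongr
    _ = _ := by rw [pow_succ]; ring

theorem gk_mono {n : ℕ} {D : Set (Fin n → ℝ)} (hD : Dm n D) {f : (Fin n → ℝ) → ℝ}
    (hf : Measurable f) (c : Fin n) : Monotone fun k => gk D c k f :=
  monotone_nat_of_le_succ fun k => gk_mono1 hD hf c k

/-- the pointwise identity -/
theorem point {t : ℝ} (h0 : 0 ≤ t) (h1 : t ≤ 1) (a b : ℝ) :
    ENNReal.ofReal (((1 - t) * a + t * b) ^ 2) +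
      ENNReal.ofReal (t * (1 - t)) * ENNReal.ofReal ((b - a) ^ 2) =
      ENNReal.ofReal (1 - t) * ENNReal.ofReal (a ^ 2) +
        ENNReal.ofReal t * ENNReal.ofReal (b ^ 2) := by
  have h2 : 0 ≤ 1 - t := by linarith
  rw [← ENNReal.ofReal_mul (mul_nonneg h0 h2), ← ENNReal.ofReal_mul h2, ← ENNReal.ofReal_mul h0,
    ← ENNReal.ofReal_add (by positivity) (by positivity),
    ← ENNReal.ofReal_add (by positivity) (by positivity)]
  congr 1
  ring

theorem gk_id {n : ℕ} {D : Set (Fin n → ℝ)} {t : ℝ} (h0 : 0 ≤ t)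
    (h1 : t ≤ 1) {f h : (Fin n → ℝ) → ℝ} (hf : Measurable f) (hh : Measurable h) (c : Fin n)
    (k : ℕ) : gk D c k (fun z => (1 - t) * f z + t * h z) +
      ENNReal.ofReal (t * (1 - t)) * gk D c k (fun z => h z - f z) =
      ENNReal.ofReal (1 - t) * gk D c k f + ENNReal.ofReal t * gk D c k h := by
  rw [gk_eq, gk_eq, gk_eq, gk_eq]
  set s : Fin n → ℝ := Pi.single c ((2 : ℝ)⁻¹ ^ k) with hs
  have m1 := meas_dd hf s
  have m2 := meas_dd hh s
  have m3 : Measurable (dd (fun z => h z - f z) s) := meas_dd (hh.sub hf) s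
  have key : (∫⁻ z in ES D s, dd (fun z => (1 - t) * f z + t * h z) s z) +
      ENNReal.ofReal (t * (1 - t)) * ∫⁻ z in ES D s, dd (fun z => h z - f z) s z =
      ENNReal.ofReal (1 - t) * (∫⁻ z in ES D s, dd f s z) +
        ENNReal.ofReal t * ∫⁻ z in ES D s, dd h s z := by
    rw [← lintegral_const_mul' _ _ ENNReal.ofReal_ne_top,
      ← lintegral_const_mul' _ _ ENNReal.ofReal_ne_top,
      ← lintegral_const_mul' _ _ ENNReal.ofReal_ne_top,
      ← lintegral_add_right _ (m3.const_mul _), ← lintegral_add_right _ (m2.const_mul _)]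
    refine lintegral_congr fun z => ?_
    unfold dd
    have := point h0 h1 (f (z + s) - f z) (h (z + s) - h z)
    rw [← this]
    congr 3 <;> ring
  calc 4 ^ k * (∫⁻ z in ES D s, dd (fun z => (1 - t) * f z + t * h z) s z) +
        ENNReal.ofReal (t * (1 - t)) * (4 ^ k * ∫⁻ z in ES D s, dd (fun z => h z - f z) s z)
      = 4 ^ k * ((∫⁻ z in ES D s, dd (fun z => (1 - t) * f z + t * h z) s z) +
        ENNReal.ofReal (t * (1 - t)) * ∫⁻ z in ES D s, dd (fun z => h z - f z) s z) := by ring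
    _ = 4 ^ k * (ENNReal.ofReal (1 - t) * (∫⁻ z in ES D s, dd f s z) +
        ENNReal.ofReal t * ∫⁻ z in ES D s, dd h s z) := by rw [key]
    _ = _ := by ring

theorem gr_id {n : ℕ} {D : Set (Fin n → ℝ)} (hD : Dm n D) {t : ℝ} (h0 : 0 ≤ t)
    (h1 : t ≤ 1) {f h : (Fin n → ℝ) → ℝ} (hf : Measurable f) (hh : Measurable h) :
    gr D (fun z => (1 - t) * f z + t * h z) +
      ENNReal.ofReal (t * (1 - t)) * gr D (fun z => h z - f z) =
      ENNReal.ofReal (1 - t) * gr D f + ENNReal.ofReal t * gr D h := by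
  unfold gr
  rw [Finset.mul_sum, Finset.mul_sum, Finset.mul_sum, ← Finset.sum_add_distrib,
    ← Finset.sum_add_distrib]
  refine Finset.sum_congr rfl fun c _ => ?_
  rw [ENNReal.mul_iSup, ENNReal.mul_iSup, ENNReal.mul_iSup]
  have m0 : Measurable fun z => (1 - t) * f z + t * h z := (hf.const_mul _).add (hh.const_mul _)
  have m3 : Measurable fun z => h z - f z := hh.sub hf
  rw [ENNReal.iSup_add_iSup_of_monotone (gk_mono hD m0 c)
      (fun i j hij => mul_le_mul_right (gk_mono hD m3 c hij) _),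
    ENNReal.iSup_add_iSup_of_monotone
      (fun i j hij => mul_le_mul_right (gk_mono hD hf c hij) _)
      (fun i j hij => mul_le_mul_right (gk_mono hD hh c hij) _)]
  exact iSup_congr fun k => gk_id h0 h1 hf hh c k

theorem meas_el (n : ℕ) : Measurable (el : (Fin n → ℝ) → ℝ) := by
  unfold el
  fun_prop

theorem pot_id {n : ℕ} {D : Set (Fin n → ℝ)} {t : ℝ} (h0 : 0 ≤ t)
    (h1 : t ≤ 1) {v : ℝ → ℝ≥0∞} (hv : Measurable v) {f h : (Fin n → ℝ) → ℝ} (hf : Measurable f)
    (hh : Measurable h) :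
    (∫⁻ z in D, v (el z) * ENNReal.ofReal (((1 - t) * f z + t * h z) ^ 2)) +
      ENNReal.ofReal (t * (1 - t)) * ∫⁻ z in D, v (el z) * ENNReal.ofReal ((h z - f z) ^ 2) =
      ENNReal.ofReal (1 - t) * (∫⁻ z in D, v (el z) * ENNReal.ofReal (f z ^ 2)) +
        ENNReal.ofReal t * ∫⁻ z in D, v (el z) * ENNReal.ofReal (h z ^ 2) := by
  have mv : Measurable fun z : Fin n → ℝ => v (el z) := hv.comp (meas_el n)
  have m3 : Measurable fun z => v (el z) * ENNReal.ofReal ((h z - f z) ^ 2) :=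
    mv.mul ((hh.sub hf).pow_const 2).ennreal_ofReal
  have m2 : Measurable fun z => v (el z) * ENNReal.ofReal (h z ^ 2) :=
    mv.mul (hh.pow_const 2).ennreal_ofReal
  rw [← lintegral_const_mul' _ _ ENNReal.ofReal_ne_top,
    ← lintegral_const_mul' _ _ ENNReal.ofReal_ne_top,
    ← lintegral_const_mul' _ _ ENNReal.ofReal_ne_top,
    ← lintegral_add_right _ (m3.const_mul _), ← lintegral_add_right _ (m2.const_mul _)]
  refine lintegral_congr fun z => ?_
  have := point h0 h1 (f z) (h z)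
  calc v (el z) * ENNReal.ofReal (((1 - t) * f z + t * h z) ^ 2) +
        ENNReal.ofReal (t * (1 - t)) * (v (el z) * ENNReal.ofReal ((h z - f z) ^ 2))
      = v (el z) * (ENNReal.ofReal (((1 - t) * f z + t * h z) ^ 2) +
        ENNReal.ofReal (t * (1 - t)) * ENNReal.ofReal ((h z - f z) ^ 2)) := by ring
    _ = _ := by rw [this]; ring

theorem cut_id {n : ℕ} {a r : ℝ} {f h : (Fin n → ℝ) → ℝ} (hf : Measurable f) (hh : Measurable h)
    (hout : ∀ z, z ∉ cube n a → f z = 1) (har : a + 1 ≤ r) (c : Fin n) (k : ℕ) :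
    gk Set.univ c k h + gk (cube n r) c k (fun z => h z - f z) =
      gk Set.univ c k (fun z => h z - f z) + gk (cube n r) c k h := by
  rw [gk_eq, gk_eq, gk_eq, gk_eq]
  set s : Fin n → ℝ := Pi.single c ((2 : ℝ)⁻¹ ^ k) with hs
  have hs1 : ∀ c', |s c'| ≤ 1 := by
    intro c'
    rw [hs]
    by_cases hc : c' = c
    · subst hc
      rw [Pi.single_eq_same, abs_of_nonneg (by positivity)]
      exact pow_le_one₀ (by norm_num) (by norm_num)
    · rw [Pi.single_eq_of_ne hc]
      simp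
  have hE : MeasurableSet (ES (cube n r) s) := Dm.measES (Or.inr ⟨r, rfl⟩) s
  have hU : ES (Set.univ : Set (Fin n → ℝ)) s = Set.univ := by
    ext z
    simp [ES]
  have hout2 : ∀ z, z ∉ ES (cube n r) s → f z = 1 ∧ f (z + s) = 1 := by
    intro z hz
    have hz' : (∃ c', r < |z c'|) ∨ ∃ c', r < |(z + s) c'| := by
      by_contra hc
      push Not at hc
      exact hz ⟨hc.1, hc.2⟩
    rcases hz' with ⟨c', hc'⟩ | ⟨c', hc'⟩
    · constructor
      · refine hout z fun hz => ?_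
        have := hz c'
        linarith
      · refine hout _ fun hz => ?_
        have h1 := hz c'
        have h2 := hs1 c'
        have h3 : |z c'| ≤ |(z + s) c'| + |s c'| := by
          have : z c' = (z + s) c' - s c' := by simp
          calc |z c'| = |(z + s) c' - s c'| := by rw [← this]
            _ ≤ _ := abs_sub _ _
        linarith
    · constructor
      · refine hout z fun hz => ?_
        have h1 := hz c'
        have h2 := hs1 c'
        have h3 : |(z + s) c'| ≤ |z c'| + |s c'| := by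
          rw [Pi.add_apply]
          exact abs_add_le _ _
        linarith
      · refine hout _ fun hz => ?_
        have := hz c'
        linarith
  have hc : ∫⁻ z in (ES (cube n r) s)ᶜ, dd h s z =
      ∫⁻ z in (ES (cube n r) s)ᶜ, dd (fun z => h z - f z) s z := by
    refine setLIntegral_congr_fun hE.compl fun z hz => ?_
    obtain ⟨h1, h2⟩ := hout2 z hz
    unfold dd
    simp only
    rw [h1, h2]
    congr 2
    ring
  have e1 : ∫⁻ z, dd h s z = (∫⁻ z in ES (cube n r) s, dd h s z) +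
      ∫⁻ z in (ES (cube n r) s)ᶜ, dd h s z := (lintegral_add_compl (fun z => dd h s z) hE).symm
  have e2 : ∫⁻ z, dd (fun z => h z - f z) s z =
      (∫⁻ z in ES (cube n r) s, dd (fun z => h z - f z) s z) +
      ∫⁻ z in (ES (cube n r) s)ᶜ, dd (fun z => h z - f z) s z :=
    (lintegral_add_compl (fun z => dd (fun z => h z - f z) s z) hE).symm
  rw [hU, setLIntegral_univ, setLIntegral_univ, e1, e2, hc]
  ring

theorem main : S_KQ := by
  intro n D hD
  refine ⟨fun f c k hf => gk_mono1 hD hf.meas c k, ?_, ?_⟩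
  · intro μ t v f h hv hf hh h0 h1
    have e1 := gr_id hD h0 h1 hf.meas hh.meas
    have e2 := pot_id (D := D) h0 h1 hv hf.meas hh.meas
    unfold QD
    calc ENNReal.ofReal μ * gr D (fun z => (1 - t) * f z + t * h z) +
          2⁻¹ * (∫⁻ z in D, v (el z) * ENNReal.ofReal (((1 - t) * f z + t * h z) ^ 2)) +
        ENNReal.ofReal (t * (1 - t)) * (ENNReal.ofReal μ * gr D (fun z => h z - f z) +
          2⁻¹ * ∫⁻ z in D, v (el z) * ENNReal.ofReal ((h z - f z) ^ 2))
        = ENNReal.ofReal μ * (gr D (fun z => (1 - t) * f z + t * h z) +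
            ENNReal.ofReal (t * (1 - t)) * gr D (fun z => h z - f z)) +
          2⁻¹ * ((∫⁻ z in D, v (el z) * ENNReal.ofReal (((1 - t) * f z + t * h z) ^ 2)) +
            ENNReal.ofReal (t * (1 - t)) *
              ∫⁻ z in D, v (el z) * ENNReal.ofReal ((h z - f z) ^ 2)) := by ring
      _ = _ := by rw [e1, e2]; ring
  · intro a r f h hf hh hout har
    unfold gr
    rw [← Finset.sum_add_distrib, ← Finset.sum_add_distrib]
    refine Finset.sum_congr rfl fun c _ => ?_
    have hU : Dm n (Set.univ : Set (Fin n → ℝ)) := Or.inl rfl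
    have hC : Dm n (cube n r) := Or.inr ⟨r, rfl⟩
    have m3 : Measurable fun z => h z - f z := hh.meas.sub hf.meas
    rw [ENNReal.iSup_add_iSup_of_monotone (gk_mono hU hh.meas c) (gk_mono hC m3 c),
      ENNReal.iSup_add_iSup_of_monotone (gk_mono hU m3 c) (gk_mono hC hh.meas c)]
    exact iSup_congr fun k => cut_id hf.meas hh.meas hout har c k

end Pool.Agent.W214.CC
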